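import Pool.Agent.MGP.Stmts

set_option autoImplicit false

/-!
# Squad MGP, row PRM: choice of the parameters
-/

namespace Pool.Agent.MGP.H23

theorem exists_x (N : ℕ) : ∃ x : ℝ, 0 ≤ x ∧ x ^ 4 = (N : ℝ) := by
  refine ⟨Real.sqrt (Real.sqrt N), Real.sqrt_nonneg _, ?_⟩
  have h1 : Real.sqrt (Real.sqrt (N : ℝ)) ^ 2 = Real.sqrt N := Real.sq_sqrt (Real.sqrt_nonneg _)
  have h2 : Real.sqrt (N : ℝ) ^ 2 = N := Real.sq_sqrt (Nat.cast_nonneg _)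
  calc Real.sqrt (Real.sqrt (N : ℝ)) ^ 4 = (Real.sqrt (Real.sqrt (N : ℝ)) ^ 2) ^ 2 := by ring
    _ = (N : ℝ) := by rw [h1, h2]

theorem le_pow {a b : ℝ} (n : ℕ) (hn : n ≠ 0) (ha : 0 ≤ a) (hb : 0 ≤ b) (h : a ^ n ≤ b ^ n) :
    a ≤ b := (pow_le_pow_iff_left₀ ha hb hn).1 h

theorem prm : PrmStmt := by
  intro k n hk hn
  obtain ⟨N, hN⟩ : ∃ N, N = 2 * k := ⟨_, rfl⟩
  obtain ⟨x, x0, hx⟩ := exists_x N
  have hNk : (N : ℝ) = 2 * (k : ℝ) := by rw [hN]; push_cast; ring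
  have hk' : (10 : ℝ) ^ 45 ≤ (k : ℝ) := by exact_mod_cast hk
  have hx1 : (2 * 10 ^ 11 : ℝ) ≤ x := by
    refine le_pow 4 (by norm_num) (by norm_num) x0 ?_
    rw [hx, hNk]
    have h1 : ((2 * 10 ^ 11 : ℝ)) ^ 4 = 1.6 * 10 ^ 45 := by norm_num
    rw [h1]
    have h2 : (0 : ℝ) < 10 ^ 45 := by positivity
    linarith
  have xpos : 0 < x := by linarith [show (0 : ℝ) < 2 * 10 ^ 11 by norm_num]
  -- z
  obtain ⟨z, hz⟩ : ∃ z, z = Nat.sqrt N := ⟨_, rfl⟩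
  have z1 : z ^ 2 ≤ N := by rw [hz]; exact Nat.sqrt_le' N
  have z2 : N < (z + 1) ^ 2 := by rw [hz]; exact Nat.lt_succ_sqrt' N
  have z1r : (z : ℝ) ≤ x ^ 2 := by
    refine le_pow 2 (by norm_num) (Nat.cast_nonneg _) (by positivity) ?_
    have h1 : ((z : ℝ)) ^ 2 ≤ (N : ℝ) := by exact_mod_cast z1
    calc (z : ℝ) ^ 2 ≤ N := h1
      _ = (x ^ 2) ^ 2 := by rw [← hx]; ring
  have z2r : x ^ 2 ≤ (z : ℝ) + 1 := by
    refine le_pow 2 (by norm_num) (by positivity) (by positivity) ?_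
    have h1 : (N : ℝ) ≤ ((z : ℝ) + 1) ^ 2 := by exact_mod_cast z2.le
    calc (x ^ 2) ^ 2 = N := by rw [← hx]; ring
      _ ≤ _ := h1
  -- H
  obtain ⟨s, hs⟩ : ∃ s, s = Nat.sqrt (6 * z) := ⟨_, rfl⟩
  have s1 : s ^ 2 ≤ 6 * z := by rw [hs]; exact Nat.sqrt_le' _
  have s2 : 6 * z < (s + 1) ^ 2 := by rw [hs]; exact Nat.lt_succ_sqrt' _
  have s1r : (s : ℝ) ≤ 2.4495 * x := by
    refine le_pow 2 (by norm_num) (Nat.cast_nonneg _) (by positivity) ?_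
    have h1 : (s : ℝ) ^ 2 ≤ 6 * (z : ℝ) := by exact_mod_cast s1
    nlinarith [sq_nonneg x]
  have s2r : x ≤ (s : ℝ) + 1 := by
    refine le_pow 2 (by norm_num) x0 (by positivity) ?_
    have h1 : 6 * (z : ℝ) ≤ ((s : ℝ) + 1) ^ 2 := by exact_mod_cast s2.le
    nlinarith [sq_nonneg x]
  obtain ⟨H, hH⟩ : ∃ H, H = s + 1 := ⟨_, rfl⟩
  have hHr : (H : ℝ) = s + 1 := by rw [hH]; push_cast; ring
  have H1 : (H : ℝ) ≤ 2.4496 * x := by
    rw [hHr]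
    nlinarith
  have H2 : x ≤ (H : ℝ) := by rw [hHr]; exact s2r
  have Hpos : (0 : ℝ) < H := by linarith
  have H3 : 1000 ≤ H := by
    have h1 : (1000 : ℝ) ≤ (H : ℝ) := by linarith [show (1000 : ℝ) ≤ 2 * 10 ^ 11 by norm_num]
    exact_mod_cast h1
  -- Q
  obtain ⟨Q, hQ⟩ : ∃ Q, Q = N / (500 * H) := ⟨_, rfl⟩
  have Q1 : 500 * H * Q ≤ N := by rw [hQ]; exact Nat.mul_div_le _ _
  have Q2 : N < 500 * H * (Q + 1) := by
    rw [hQ]
    exact Nat.lt_mul_div_succ N (by omega)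
  have Q2r : (N : ℝ) ≤ 500 * H * ((Q : ℝ) + 1) := by exact_mod_cast Q2.le
  have Q3 : x ^ 3 / 1224.8 ≤ (Q : ℝ) + 1 := by
    rw [div_le_iff₀ (by norm_num)]
    have h1 : x ^ 4 ≤ 500 * (2.4496 * x) * ((Q : ℝ) + 1) := by
      rw [hx]
      refine Q2r.trans ?_
      have h2 : (0 : ℝ) ≤ (Q : ℝ) + 1 := by positivity
      nlinarith
    have h2 : x * x ^ 3 ≤ x * (((Q : ℝ) + 1) * 1224.8) := by
      calc x * x ^ 3 = x ^ 4 := by ring
        _ ≤ _ := h1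
        _ = _ := by ring
    exact le_of_mul_le_mul_left h2 xpos
  have x2pos : 0 < x ^ 2 := by positivity
  have x3 : 2 * 10 ^ 11 * x ^ 2 ≤ x ^ 3 := by
    have : x ^ 3 = x * x ^ 2 := by ring
    rw [this]
    exact mul_le_mul_of_nonneg_right hx1 x2pos.le
  have x2 : 1 ≤ x ^ 2 := by nlinarith
  have Q4 : x ^ 3 / 1225 + 70 * (z : ℝ) ≤ (Q : ℝ) := by
    have h1 : x ^ 3 / 1225 + 70 * x ^ 2 + 1 ≤ x ^ 3 / 1224.8 := by
      rw [div_add' _ _ _ (by norm_num), div_add' _ _ _ (by norm_num),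
        div_le_div_iff₀ (by norm_num) (by norm_num)]
      nlinarith
    nlinarith
  have x3pos : 0 < x ^ 3 := by positivity
  have Q5 : 70 * z ≤ Q := by
    have h1 : 70 * (z : ℝ) ≤ (Q : ℝ) := by
      have : 0 ≤ x ^ 3 / 1225 := by positivity
      linarith
    exact_mod_cast h1
  obtain ⟨E, hE⟩ : ∃ E, Q = E + 70 * z := ⟨Q - 70 * z, by omega⟩
  have E1 : x ^ 3 / 1225 ≤ (E : ℝ) := by
    have h1 : (Q : ℝ) = E + 70 * z := by rw [hE]; push_cast; ring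
    linarith
  obtain ⟨F, hF⟩ : ∃ F, F = E / 2 := ⟨_, rfl⟩
  have F1 : (E : ℝ) ≤ 2 * (F : ℝ) + 1 := by
    have h1 : E ≤ 2 * F + 1 := by omega
    exact_mod_cast h1
  have F2 : x ^ 3 / 2451 ≤ (F : ℝ) := by
    have h1 : x ^ 3 / 2451 ≤ (x ^ 3 / 1225 - 1) / 2 := by
      rw [div_sub' (by norm_num), div_div, div_le_div_iff₀ (by norm_num) (by norm_num)]
      nlinarith
    linarith
  have Fpos : (0 : ℝ) < F := lt_of_lt_of_le (by positivity) F2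
  have Fpos' : 0 < F := by exact_mod_cast Fpos
  obtain ⟨T, hT⟩ : ∃ T, T = N / F := ⟨_, rfl⟩
  have T1 : F * T ≤ N := by rw [hT]; exact Nat.mul_div_le _ _
  have T2 : N < F * (T + 1) := by rw [hT]; exact Nat.lt_mul_div_succ N Fpos'
  have T3 : (T : ℝ) ≤ 2451 * x := by
    have h1 : (F : ℝ) * T ≤ x ^ 4 := by rw [hx]; exact_mod_cast T1
    have h2 : x ^ 3 / 2451 * T ≤ (F : ℝ) * T := mul_le_mul_of_nonneg_right F2 (Nat.cast_nonneg _)
    have h3 : x ^ 3 * T ≤ x ^ 3 * (2451 * x) := by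
      have h4 := h2.trans h1
      calc x ^ 3 * (T : ℝ) = 2451 * (x ^ 3 / 2451 * T) := by ring
        _ ≤ 2451 * x ^ 4 := by linarith
        _ = _ := by ring
    exact le_of_mul_le_mul_left h3 x3pos
  refine ⟨z, H, E, 2 * T + 3, ?_, ?_, ?_, ?_, ?_, ?_⟩
  · rw [← hN]
    refine ⟨?_, ?_, z1, z2, ?_, H3, ?_⟩
    · rw [hN]
      exact even_two_mul k
    · have h1 : (1 : ℝ) ≤ (z : ℝ) := by nlinarith
      exact_mod_cast h1
    · rw [hH]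
      exact s2.le
    · rw [← hE]
      exact Q1
  · have h1 : (100 : ℝ) ≤ (E : ℝ) := by
      have h2 : (100 : ℝ) ≤ x ^ 3 / 1225 := by
        rw [le_div_iff₀ (by norm_num)]
        nlinarith
      linarith
    exact_mod_cast h1
  · exact ⟨T + 1, by ring⟩
  · rw [← hF, ← hN]
    nlinarith
  · rw [← hF]
    have h1 : 2 * ((2 * (T : ℝ) + 3)) ^ 2 ≤ (F : ℝ) := by
      have h2 : 2 * (T : ℝ) + 3 ≤ 4903 * x := by nlinarith
      have h3 : (2 * (T : ℝ) + 3) ^ 2 ≤ (4903 * x) ^ 2 :=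
        pow_le_pow_left₀ (by positivity) h2 2
      have h4 : 2 * (4903 * x) ^ 2 ≤ x ^ 3 / 2451 := by
        rw [le_div_iff₀ (by norm_num)]
        nlinarith
      linarith
    exact_mod_cast h1
  · rw [← hF]
    have h1 : 5044 * (n : ℝ) ≤ x ^ 3 := by
      refine le_pow 4 (by norm_num) (by positivity) x3pos.le ?_
      have h2 : (3000 * (n : ℝ)) ^ 4 ≤ (k : ℝ) ^ 3 := by exact_mod_cast hn
      have h3 : (x ^ 3) ^ 4 = 8 * (k : ℝ) ^ 3 := by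
        calc (x ^ 3) ^ 4 = (x ^ 4) ^ 3 := by ring
          _ = _ := by rw [hx, hNk]; ring
      rw [h3]
      have h4 : (0 : ℝ) ≤ (n : ℝ) ^ 4 := by positivity
      have h5 : (5044 * (n : ℝ)) ^ 4 ≤ 8 * (3000 * (n : ℝ)) ^ 4 := by
        rw [mul_pow, mul_pow]
        nlinarith
      linarith
    have h2 : 2 * (n : ℝ) ≤ F := by
      have h3 : 2 * (n : ℝ) ≤ x ^ 3 / 2451 := by
        rw [le_div_iff₀ (by norm_num)]
        nlinarith
      linarith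
    exact_mod_cast h2

end Pool.Agent.MGP.H23
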